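import Pool.Agent.Royle.Ins

/-!
# MP_363d14_co : Royle's inequality `2 |E| < c c*`

Own statement beside the frozen one: for every finite connected matroid with at least four elements
without circuits and cocircuits of size at most two (in particular for every 3-connected one) which
is not isomorphic to `AG(3,2)`.
-/

set_option autoImplicit false

namespace Pool.Agent.Results.MP_363d14_co.RoyleInequality

open Set

universe u

variable {α : Type u}

/-- `(X, Y)` is a `k`-separation of `M`: a partition of the ground set with `|X|, |Y| ≥ k` and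
`r(X) + r(Y) - r(M) ≤ k - 1`. -/
def IsSeparation (M : Matroid α) (k : ℕ) (X Y : Set α) : Prop :=
  X ∪ Y = M.E ∧ Disjoint X Y ∧ (k : ℕ∞) ≤ X.encard ∧ (k : ℕ∞) ≤ Y.encard ∧
    M.eRk X + M.eRk Y + 1 ≤ M.eRank + k

/-- 3-connected in the sense of Tutte: no 1-separation and no 2-separation. -/
def ThreeConnected (M : Matroid α) : Prop :=
  ∀ k : ℕ, k = 1 ∨ k = 2 → ∀ X Y : Set α, ¬ IsSeparation M k X Y

/-- Connected: any two elements lie in a common circuit. -/
def Connected (M : Matroid α) : Prop :=
  ∀ x ∈ M.E, ∀ y ∈ M.E, x ≠ y → ∃ C, M.IsCircuit C ∧ x ∈ C ∧ y ∈ C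

/-- No loops and no parallel pairs: every circuit has at least three elements. -/
def Simple (M : Matroid α) : Prop := ∀ C, M.IsCircuit C → 3 ≤ C.encard

/-- The largest size `c(M)` of a circuit; `c(M✶)` is the largest size of a cocircuit. -/
noncomputable def circumference (M : Matroid α) : ℕ :=
  sSup {n : ℕ | ∃ C, M.IsCircuit C ∧ C.ncard = n}

/-- `M` is isomorphic to `AG(3,2)`: the vectors of `GF(2)^4` with first coordinate `1`, with linear
dependence. -/
def IsAG32 (M : Matroid α) : Prop :=
  ∃ f : α → (Fin 4 → ZMod 2), BijOn f M.E {v | v 0 = 1} ∧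
    ∀ I ⊆ M.E, (M.Indep I ↔ LinearIndependent (ZMod 2) (fun x : I => f x))

open scoped Matroid

theorem ncard_le_circumference {M : Matroid α} (hM : M.Finite) {C : Set α} (hC : M.IsCircuit C) :
    C.ncard ≤ circumference M := by
  refine le_csSup ⟨M.E.ncard, ?_⟩ ⟨C, hC, rfl⟩
  rintro n ⟨D, hD, rfl⟩
  exact ncard_le_ncard hD.subset_ground hM.ground_finite

theorem exists_circumference {M : Matroid α} (hM : M.Finite) (h : ∃ C, M.IsCircuit C) :
    ∃ C, M.IsCircuit C ∧ C.ncard = circumference M := by
  have h1 : sSup {n : ℕ | ∃ C, M.IsCircuit C ∧ C.ncard = n} ∈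
      {n : ℕ | ∃ C, M.IsCircuit C ∧ C.ncard = n} := by
    refine Nat.sSup_mem ?_ ?_
    · obtain ⟨C, hC⟩ := h
      exact ⟨_, C, hC, rfl⟩
    · refine ⟨M.E.ncard, ?_⟩
      rintro n ⟨D, hD, rfl⟩
      exact ncard_le_ncard hD.subset_ground hM.ground_finite
  exact h1

theorem affine_to_linear {ι : Type*} (f : ι → (Fin 3 → ZMod 2)) :
    AffineIndependent (ZMod 2) f ↔
      LinearIndependent (ZMod 2) (fun i => (Fin.cons 1 (f i) : Fin 4 → ZMod 2)) := by
  rw [affineIndependent_iff, linearIndependent_iff']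
  have key : ∀ (s : Finset ι) (w : ι → ZMod 2),
      (∑ i ∈ s, w i • (Fin.cons 1 (f i) : Fin 4 → ZMod 2)) = 0 ↔
        (∑ i ∈ s, w i = 0 ∧ ∑ i ∈ s, w i • f i = 0) := by
    intro s w
    have h0 : (∑ i ∈ s, w i • (Fin.cons 1 (f i) : Fin 4 → ZMod 2)) =
        Fin.cons (∑ i ∈ s, w i) (∑ i ∈ s, w i • f i) := by
      funext j
      rw [Finset.sum_apply]
      refine Fin.cases ?_ (fun j => ?_) j
      · simp
      · simp [Finset.sum_apply]
    rw [h0]
    constructor
    · intro h
      refine ⟨by simpa using congrFun h 0, ?_⟩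
      funext j
      simpa using congrFun h j.succ
    · rintro ⟨h1, h2⟩
      rw [h1, h2]
      funext j
      refine Fin.cases ?_ (fun j => ?_) j <;> simp
  constructor
  · intro h s w hw
    obtain ⟨h1, h2⟩ := (key s w).1 hw
    exact h s w h1 h2
  · intro h s w h1 h2
    exact h s w ((key s w).2 ⟨h1, h2⟩)

theorem isAG32_of {M : Matroid α} (h : ∃ f : α → (Fin 3 → ZMod 2), Set.BijOn f M.E Set.univ ∧
    ∀ I : Set α, I ⊆ M.E → (M.Indep I ↔ AffineIndependent (ZMod 2) (fun x : I => f x))) :
    IsAG32 M := by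
  obtain ⟨f, hf, hI⟩ := h
  refine ⟨fun x => Fin.cons 1 (f x), ⟨fun x _ => by simp, ?_, ?_⟩, fun I hIE => ?_⟩
  · intro x hx y hy hxy
    exact hf.injOn hx hy (Fin.cons_right_injective (α := fun _ => ZMod 2) 1 hxy)
  · intro v hv
    obtain ⟨x, hx, hxv⟩ := hf.surjOn (mem_univ (Fin.tail v))
    refine ⟨x, hx, ?_⟩
    have hv : v 0 = 1 := hv
    show Fin.cons 1 (f x) = v
    rw [hxv, ← hv]
    exact Fin.cons_self_tail v
  · rw [hI I hIE, affine_to_linear]

open Pool.Agent.Royle in
theorem general (M : Matroid α) (hM : M.Finite) (h4 : 4 ≤ M.E.encard) (hc : Connected M)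
    (hs : Simple M) (hs' : Simple M✶) (hAG : ¬ IsAG32 M) :
    2 * M.E.ncard < circumference M * circumference M✶ := by
  have := hM
  have hMd : M✶.Finite := inferInstance
  have hE : (Subtype.val '' (univ : Set M.E) : Set α) = M.E := by
    rw [image_univ, Subtype.range_coe]
  have henc : ∀ U : Set M.E, (U.ncard : ℕ∞) = (Subtype.val '' U : Set α).encard := by
    intro U
    have : Finite M.E := hM.ground_finite
    rw [Subtype.val_injective.encard_image, (toFinite U).cast_ncard_eq]
  -- a circuit exists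
  have hex : ∃ C, M.IsCircuit C := by
    have h2 : 1 < M.E.encard := lt_of_lt_of_le (by norm_num) h4
    obtain ⟨x, y, hx, hy, hxy⟩ := one_lt_encard_iff.1 h2
    obtain ⟨C, hC, -, -⟩ := hc x hx y hy hxy
    exact ⟨C, hC⟩
  obtain ⟨C, hC, hCc⟩ := exists_circumference hM hex
  have hfinC : ∀ C, M.IsCircuit C → C.Finite := fun C hC =>
    hM.ground_finite.subset hC.subset_ground
  have hfinD : ∀ C, M.IsCocircuit C → C.Finite := fun C hC =>
    hM.ground_finite.subset hC.subset_ground
  have hN1 : ∀ x ∈ (M.restrictSubtype M.E).E, ∀ y ∈ (M.restrictSubtype M.E).E, x ≠ y →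
      Cn (M.restrictSubtype M.E) x y := by
    rintro ⟨x, hx⟩ - ⟨y, hy⟩ - hxy
    obtain ⟨C, hC, hxC, hyC⟩ := hc x hx y hy (fun h => hxy (Subtype.ext h))
    refine ⟨Subtype.val ⁻¹' C, ?_, hxC, hyC⟩
    rw [sub_isCircuit_iff subset_rfl, Subtype.image_preimage_coe,
      inter_eq_self_of_subset_right hC.subset_ground]
    exact hC
  have hN2 : ∀ Z, (M.restrictSubtype M.E).IsCircuit Z → 3 ≤ Z.ncard := by
    intro Z hZ
    rw [sub_isCircuit_iff subset_rfl] at hZ
    have h1 := hs _ hZ
    rw [← henc] at h1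
    exact_mod_cast h1
  have hN3 : ∀ Z, (M.restrictSubtype M.E).IsCocircuit Z → 3 ≤ Z.ncard := by
    intro Z hZ
    rw [sub_isCocircuit_iff, Matroid.isCocircuit_def] at hZ
    have h1 := hs' _ hZ
    rw [← henc] at h1
    exact_mod_cast h1
  have hN4 : C.encard = ((circumference M : ℕ) : ℕ∞) := by
    rw [← hCc, (hfinC C hC).cast_ncard_eq]
  have hN5 : ∀ C, M.IsCircuit C → C.encard ≤ ((circumference M : ℕ) : ℕ∞) := by
    intro C hC
    rw [← (hfinC C hC).cast_ncard_eq]
    exact_mod_cast ncard_le_circumference hM hC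
  have hN6 : ∀ D, M.IsCocircuit D → D.encard ≤ ((circumference M✶ : ℕ) : ℕ∞) := by
    intro D hD
    rw [← (hfinD D hD).cast_ncard_eq]
    exact_mod_cast ncard_le_circumference hMd hD.isCircuit
  rcases royle_core M hM hN1 hN2 hN3 (circumference M) (circumference M✶) ⟨C, hC, hN4⟩ hN5 hN6
    with h | h
  · have h1 : (M.E.encard) = (M.E.ncard : ℕ∞) := (hM.ground_finite.cast_ncard_eq).symm
    rw [h1] at h
    exact_mod_cast h
  · exact absurd (isAG32_of h) hAG

open Pool.Agent.Royle in
/-- A 3-connected matroid with at least four elements is connected, simple and cosimple. -/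
theorem of_threeConnected (M : Matroid α) (hM : M.Finite) (h4 : 4 ≤ M.E.encard)
    (h3 : ThreeConnected M) : Connected M ∧ Simple M ∧ Simple M✶ := by
  classical
  have : Fintype M.E := hM.ground_finite.fintype
  set N := M.restrictSubtype M.E with hN
  have hNE : N.E = univ := Matroid.restrictSubtype_ground
  have henc : ∀ U : Set M.E, (U.ncard : ℕ∞) = (Subtype.val '' U : Set α).encard := by
    intro U
    rw [Subtype.val_injective.encard_image, (toFinite U).cast_ncard_eq]
  have himE : (Subtype.val '' (univ : Set M.E) : Set α) = M.E := by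
    rw [image_univ, Subtype.range_coe]
  have hncE : (N.E.ncard : ℕ∞) = M.E.encard := by
    rw [henc, hNE, himE]
  have himd : ∀ U : Set M.E, (Subtype.val '' (N.E \ U) : Set α) = M.E \ Subtype.val '' U := by
    intro U
    rw [image_sdiff Subtype.val_injective, hNE, himE]
  have hNsep : NoSep N := by
    intro X hX k h1 h2 h5 h6
    have hk : k = 1 ∨ k = 2 := by omega
    have h7 := h3 k hk (Subtype.val '' X) (M.E \ Subtype.val '' X)
    have h8 : (Subtype.val '' X : Set α) ⊆ M.E := by
      rintro _ ⟨x, -, rfl⟩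
      exact x.2
    rw [sub_eRk, sub_eRk, himd, ← Matroid.eRk_ground, sub_eRk, hNE, himE, Matroid.eRk_ground]
    by_contra hcon
    refine h7 ⟨union_sdiff_cancel h8, disjoint_sdiff_right, ?_, ?_, ?_⟩
    · rwa [Subtype.val_injective.encard_image]
    · rw [← himd, Subtype.val_injective.encard_image]; exact h6
    · exact Order.add_one_le_of_lt (not_le.1 hcon)
  have h4' : 4 ≤ N.E.ncard := by
    have : ((4 : ℕ) : ℕ∞) ≤ (N.E.ncard : ℕ∞) := by
      rw [hncE]; exact_mod_cast h4
    exact_mod_cast this
  have hc := conn_of_noSep hNsep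
  have hs := simple_of_noSep hNsep h4'
  have hs' := cosimple_of_noSep hNsep h4'
  refine ⟨?_, ?_, ?_⟩
  · intro x hx y hy hxy
    obtain ⟨C, hC, hxC, hyC⟩ := hc ⟨x, hx⟩ (by rw [hNE]; exact mem_univ _) ⟨y, hy⟩
      (by rw [hNE]; exact mem_univ _) (fun h => hxy (by simpa using h))
    rw [hN, sub_isCircuit_iff subset_rfl] at hC
    exact ⟨_, hC, ⟨_, hxC, rfl⟩, ⟨_, hyC, rfl⟩⟩
  · intro C hC
    have h1 := hs (Subtype.val ⁻¹' C) (by
      rw [hN, sub_isCircuit_iff subset_rfl, Subtype.image_preimage_coe,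
        inter_eq_self_of_subset_right hC.subset_ground]
      exact hC)
    have h2 := henc (Subtype.val ⁻¹' C)
    rw [Subtype.image_preimage_coe, inter_eq_self_of_subset_right hC.subset_ground] at h2
    rw [← h2]
    exact_mod_cast h1
  · intro C hC
    have hCE : C ⊆ M.E := hC.subset_ground
    have h1 := hs' (Subtype.val ⁻¹' C) (by
      rw [hN, sub_isCocircuit_iff, Subtype.image_preimage_coe,
        inter_eq_self_of_subset_right hCE, Matroid.isCocircuit_def]
      exact hC)
    have h2 := henc (Subtype.val ⁻¹' C)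
    rw [Subtype.image_preimage_coe, inter_eq_self_of_subset_right hCE] at h2
    rw [← h2]
    exact_mod_cast h1

/-- Royle's inequality. (1) For every finite 3-connected matroid `M` with at least four elements
that is not isomorphic to `AG(3,2)`, `2 |E| < c(M) c(M✶)`. (2) More generally, the same for every
finite connected matroid with at least four elements all of whose circuits and cocircuits have at
least three elements. -/
theorem result :
    (∀ (α : Type u) (M : Matroid α), M.Finite → 4 ≤ M.E.encard → ThreeConnected M → ¬ IsAG32 M →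
      2 * M.E.ncard < circumference M * circumference M✶) ∧
    (∀ (α : Type u) (M : Matroid α), M.Finite → 4 ≤ M.E.encard → Connected M → Simple M →
      Simple M✶ → ¬ IsAG32 M → 2 * M.E.ncard < circumference M * circumference M✶) := by
  refine ⟨fun α M hM h4 h3 hAG => ?_, fun α M hM h4 hc hs hs' hAG => general M hM h4 hc hs hs' hAG⟩
  obtain ⟨hc, hs, hs'⟩ := of_threeConnected M hM h4 h3
  exact general M hM h4 hc hs hs' hAG

end Pool.Agent.Results.MP_363d14_co.RoyleInequality
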